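import Pool.Agent.U865.WM.Sys

/-!
# The expected local factor
-/

set_option autoImplicit false

open Module

namespace Pool.Agent.U865.EF

universe u v w

open Pool.Agent.Y143 Pool.Agent.Y163.MW Pool.Agent.Y163.MX Pool.Agent.U865.WM

/-! ### Polynomials with rational coefficients -/

/-- The greatest common divisor of `C(T)` and `q ^ (deg C) C(T / q)`: its roots are the numbers `α` such
that `α` and `α / q` are roots of `C`, with the smaller of the two multiplicities. -/
noncomputable def common (C : Polynomial ℚ) (q : ℕ) : Polynomial ℚ := by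
  classical
  exact normalize (EuclideanDomain.gcd C (C.scaleRoots (q : ℚ)))

/-- The reverse polynomial of `C / common C q`. -/
noncomputable def expected (C : Polynomial ℚ) (q : ℕ) : Polynomial ℚ := (C / common C q).reverse

lemma common_monic {C : Polynomial ℚ} (hC : C ≠ 0) (q : ℕ) : (common C q).Monic := by
  classical
  unfold common
  apply Polynomial.monic_normalize
  intro h
  rw [EuclideanDomain.gcd_eq_zero_iff] at h
  exact hC h.1

lemma common_dvd (C : Polynomial ℚ) (q : ℕ) : common C q ∣ C := by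
  classical
  unfold common
  rw [normalize_dvd_iff]
  exact EuclideanDomain.gcd_dvd_left _ _

lemma common_dvd' (C : Polynomial ℚ) (q : ℕ) : common C q ∣ C.scaleRoots (q : ℚ) := by
  classical
  unfold common
  rw [normalize_dvd_iff]
  exact EuclideanDomain.gcd_dvd_right _ _

lemma quot_mul {C : Polynomial ℚ} (hC : C ≠ 0) (q : ℕ) : common C q * (C / common C q) = C :=
  EuclideanDomain.mul_div_cancel' (common_monic hC q).ne_zero (common_dvd C q)

lemma quot_monic {C : Polynomial ℚ} (hC : C.Monic) (q : ℕ) : (C / common C q).Monic := by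
  have h := quot_mul hC.ne_zero q
  exact (common_monic hC.ne_zero q).of_mul_monic_left (by rw [h]; exact hC)

/-- The multiplicities of the roots of the greatest common divisor. -/
lemma mult_common {Ω : Type w} [Field Ω] [CharZero Ω] {C : Polynomial ℚ} (hC : C ≠ 0) {q : ℕ}
    (hq : q ≠ 0) (α : Ω) : ((common C q).map (algebraMap ℚ Ω)).rootMultiplicity α =
      min ((C.map (algebraMap ℚ Ω)).rootMultiplicity α)
        ((C.map (algebraMap ℚ Ω)).rootMultiplicity (α / q)) := by
  classical
  have hq0 : (q : Ω) ≠ 0 := Nat.cast_ne_zero.2 hq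
  have hinj := (algebraMap ℚ Ω).injective
  have hC' : C.map (algebraMap ℚ Ω) ≠ 0 := (Polynomial.map_ne_zero_iff hinj).2 hC
  have hs0 : C.scaleRoots (q : ℚ) ≠ 0 := Polynomial.scaleRoots_ne_zero hC _
  have hs' : (C.scaleRoots (q : ℚ)).map (algebraMap ℚ Ω) ≠ 0 := (Polynomial.map_ne_zero_iff hinj).2 hs0
  have hscale : (C.scaleRoots (q : ℚ)).map (algebraMap ℚ Ω) =
      (C.map (algebraMap ℚ Ω)).scaleRoots (q : Ω) := by
    rw [Polynomial.map_scaleRoots _ _ _ (by
      rw [Ne, map_eq_zero]
      exact Polynomial.leadingCoeff_ne_zero.2 hC)]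
    simp
  have hmul : ((C.scaleRoots (q : ℚ)).map (algebraMap ℚ Ω)).rootMultiplicity α =
      (C.map (algebraMap ℚ Ω)).rootMultiplicity (α / q) := by
    rw [hscale]
    have := Polynomial.rootMultiplicity_scaleRoots (C.map (algebraMap ℚ Ω)) (r := (q : Ω))
      (a := α / q) (IsLeftCancelMulZero.mul_left_cancel_of_ne_zero hq0)
    rwa [mul_div_cancel₀ _ hq0] at this
  apply le_antisymm
  · refine le_min ?_ ?_
    · exact Polynomial.rootMultiplicity_le_rootMultiplicity_of_dvd hC'
        (Polynomial.map_dvd _ (common_dvd C q)) α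
    · rw [← hmul]
      exact Polynomial.rootMultiplicity_le_rootMultiplicity_of_dvd hs'
        (Polynomial.map_dvd _ (common_dvd' C q)) α
  · have hne : (common C q).map (algebraMap ℚ Ω) ≠ 0 :=
      (Polynomial.map_ne_zero_iff hinj).2 (common_monic hC q).ne_zero
    rw [Polynomial.le_rootMultiplicity_iff hne]
    have h1 : (Polynomial.X - Polynomial.C α) ^ (min ((C.map (algebraMap ℚ Ω)).rootMultiplicity α)
        ((C.map (algebraMap ℚ Ω)).rootMultiplicity (α / q))) ∣
        EuclideanDomain.gcd (C.map (algebraMap ℚ Ω))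
          ((C.scaleRoots (q : ℚ)).map (algebraMap ℚ Ω)) := by
      apply EuclideanDomain.dvd_gcd
      · rw [← Polynomial.le_rootMultiplicity_iff hC']
        exact min_le_left _ _
      · rw [← Polynomial.le_rootMultiplicity_iff hs', hmul]
        exact min_le_right _ _
    rw [Polynomial.gcd_map] at h1
    refine h1.trans (Polynomial.map_dvd _ ?_)
    unfold common
    rw [dvd_normalize_iff]

/-- The reverse of a product of linear factors. -/
lemma reverse_prod {Ω : Type w} [Field Ω] (s : Finset Ω) (e : Ω → ℕ) :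
    (∏ α ∈ s, (Polynomial.X - Polynomial.C α) ^ e α).reverse =
      ∏ α ∈ s, (1 - Polynomial.C α * Polynomial.X) ^ e α := by
  classical
  have h1 : ∀ α : Ω, (Polynomial.X - Polynomial.C α).reverse = 1 - Polynomial.C α * Polynomial.X := by
    intro α
    rw [sub_eq_add_neg, ← Polynomial.C_neg, Polynomial.reverse_add_C]
    have h2 : (Polynomial.X : Polynomial Ω).reverse = 1 := by
      have := Polynomial.reverse_mul_X (1 : Polynomial Ω)
      rw [one_mul] at this
      rw [this, ← Polynomial.C_1, Polynomial.reverse_C]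
    rw [h2, Polynomial.natDegree_X, pow_one, Polynomial.C_neg]
    ring
  have h2 : ∀ (f : Polynomial Ω) (n : ℕ), (f ^ n).reverse = f.reverse ^ n := by
    intro f n
    induction n with
    | zero => rw [pow_zero, pow_zero, ← Polynomial.C_1, Polynomial.reverse_C]
    | succ n ih => rw [pow_succ, Polynomial.reverse_mul_of_domain, ih, pow_succ]
  induction s using Finset.induction_on with
  | empty => rw [Finset.prod_empty, Finset.prod_empty, ← Polynomial.C_1, Polynomial.reverse_C]
  | insert a s ha ih =>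
    rw [Finset.prod_insert ha, Finset.prod_insert ha, Polynomial.reverse_mul_of_domain, ih, h2, h1]

lemma reverse_map {Ω : Type w} [Field Ω] [CharZero Ω] (P : Polynomial ℚ) :
    P.reverse.map (algebraMap ℚ Ω) = (P.map (algebraMap ℚ Ω)).reverse := by
  unfold Polynomial.reverse
  rw [← Polynomial.reflect_map, Polynomial.natDegree_map]

/-! ### The kernel of `N` -/

variable {Ω : Type w} [Field Ω] [CharZero Ω] {R : Coh.{v, w} Ω} {q : ℕ}

/-- The dimension of the generalized eigenspace of `F` for `α` on `ker N ∩ H^m`. -/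
noncomputable def kmult (R : Coh.{v, w} Ω) (m : ℕ) (α : Ω) : ℕ :=
  finrank Ω (LinearMap.ker R.N ⊓ (R.gr m ⊓ R.F.maxGenEigenspace α) : Submodule Ω R.V)

/-- The polynomial `det (1 - T F)` for the action of `F` on `ker N ∩ H^m` (the product of the
`(1 - α T) ^ k`, `k` being the dimension of the generalized eigenspace for `α`). -/
noncomputable def factor (R : Coh.{v, w} Ω) (m : ℕ) : Polynomial Ω :=
  ∏ᶠ α : Ω, (1 - Polynomial.C α * Polynomial.X) ^ kmult R m α

lemma kmult_add (hR : R.IsCoh q) (m : ℕ) (α : Ω) : kmult R m α + rkA R m 1 α = mult R m α := by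
  have := hR.finite
  let f : R.pc (m, α) →ₗ[Ω] R.V := (R.N ^ 1).domRestrict (R.pc (m, α))
  have h1 : LinearMap.range f = (R.pc (m, α)).map (R.N ^ 1) := LinearMap.range_domRestrict _ _
  have h2 := LinearMap.finrank_range_add_finrank_ker f
  have h3 : (LinearMap.ker f).map (R.pc (m, α)).subtype =
      LinearMap.ker R.N ⊓ (R.gr m ⊓ R.F.maxGenEigenspace α) := by
    ext x
    constructor
    · rintro ⟨y, hy, rfl⟩
      refine ⟨?_, y.2⟩
      have : (R.N ^ 1) y = 0 := hy
      rw [pow_one] at this
      exact this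
    · rintro ⟨hx, hx'⟩
      refine ⟨⟨x, hx'⟩, ?_, rfl⟩
      show (R.N ^ 1) x = 0
      rw [pow_one]
      exact hx
  have h4 : finrank Ω (LinearMap.ker f) = kmult R m α := by
    unfold kmult
    rw [← h3]
    exact (Submodule.finrank_map_subtype_eq _ _).symm
  have h5 : finrank Ω (LinearMap.range f) = rkA R m 1 α := by rw [h1]; rfl
  have h6 : finrank Ω (R.pc (m, α)) = mult R m α := rfl
  omega

lemma rkA_le_min (hq : 1 < q) (hR : R.IsCoh q) (m : ℕ) (α : Ω) :
    rkA R m 1 α ≤ min (mult R m α) (mult R m (α / q)) := by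
  refine le_min (rkA_le_left hR m 1 α) ?_
  have := rkA_le_right hq hR m 1 α
  rwa [pow_one] at this

lemma finrank_biSup_eq {K V I : Type*} [Field K] [AddCommGroup V] [Module K V]
    [Module.Finite K V] {W : I → Submodule K V} (hW : iSupIndep W) (s : Finset I) :
    finrank K (⨆ i ∈ s, W i : Submodule K V) = ∑ i ∈ s, finrank K (W i) := by
  classical
  induction s using Finset.induction_on with
  | empty => simp
  | insert i s his ih =>
    rw [Finset.iSup_insert, Finset.sum_insert his, ← ih]
    have h1 := Submodule.finrank_sup_add_finrank_inf_eq (W i) (⨆ i ∈ s, W i)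
    have h2 : Disjoint (W i) (⨆ i ∈ s, W i) := by
      have := hW.disjoint_biSup (x := i) (y := (s : Set I)) (by simpa using his)
      simpa using this
    rw [h2.eq_bot, finrank_bot, add_zero] at h1
    exact h1

/-- The rank of `N` on `H^m` is the sum of the ranks on the generalized eigenspaces of `F`. -/
lemma rk_eq_sum [IsAlgClosed Ω] (hq : 1 < q) (hR : R.IsCoh q) (m k : ℕ) :
    rk R m k = ∑ α ∈ evs hR m, rkA R m k α := by
  have := hR.finite
  have hq0 : (q : Ω) ≠ 0 := Nat.cast_ne_zero.2 (by omega)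
  unfold Pool.Agent.U865.WM.rk
  have e : (R.gr m).map (R.N ^ k) = ⨆ α ∈ evs hR m, (R.pc (m, α)).map (R.N ^ k) := by
    conv_lhs => rw [gr_eq_evs hR m, Submodule.map_iSup]
    refine iSup_congr fun α => ?_
    rw [Submodule.map_iSup]
  rw [e]
  apply finrank_biSup_eq
  have hind : iSupIndep (fun α : Ω => R.pc (m, α / (q : Ω) ^ k)) := by
    refine (Coh.indep_pc hR).comp (f := fun α : Ω => (m, α / (q : Ω) ^ k)) ?_
    intro a b hab
    exact (div_left_inj' (pow_ne_zero _ hq0)).1 (Prod.mk.inj hab).2
  refine hind.mono fun α => ?_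
  rintro _ ⟨x, hx, rfl⟩
  exact Npow_pc hq hR m k α x hx

lemma finrank_gr_eq [IsAlgClosed Ω] (hR : R.IsCoh q) (m : ℕ) :
    finrank Ω (R.gr m) = ∑ α ∈ evs hR m, mult R m α := by
  have := hR.finite
  have h1 : iSupIndep (fun α => R.pc (m, α)) :=
    (Coh.indep_pc hR).comp (f := fun α : Ω => (m, α)) (fun _ _ h => (Prod.mk.inj h).2)
  conv_lhs => rw [gr_eq_evs hR m]
  exact finrank_biSup_eq h1 _

lemma rk_add_ker (hR : R.IsCoh q) (m : ℕ) :
    rk R m 1 + finrank Ω (LinearMap.ker R.N ⊓ R.gr m : Submodule Ω R.V) = finrank Ω (R.gr m) := by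
  have := hR.finite
  let f : R.gr m →ₗ[Ω] R.V := (R.N ^ 1).domRestrict (R.gr m)
  have h1 : LinearMap.range f = (R.gr m).map (R.N ^ 1) := LinearMap.range_domRestrict _ _
  have h2 := LinearMap.finrank_range_add_finrank_ker f
  have h3 : (LinearMap.ker f).map (R.gr m).subtype = LinearMap.ker R.N ⊓ R.gr m := by
    ext x
    constructor
    · rintro ⟨y, hy, rfl⟩
      refine ⟨?_, y.2⟩
      have : (R.N ^ 1) y = 0 := hy
      rw [pow_one] at this
      exact this
    · rintro ⟨hx, hx'⟩
      refine ⟨⟨x, hx'⟩, ?_, rfl⟩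
      show (R.N ^ 1) x = 0
      rw [pow_one]
      exact hx
  have h4 : finrank Ω (LinearMap.ker f) =
      finrank Ω (LinearMap.ker R.N ⊓ R.gr m : Submodule Ω R.V) := by
    rw [← h3]
    exact (Submodule.finrank_map_subtype_eq _ _).symm
  have h5 : finrank Ω (LinearMap.range f) = rk R m 1 := by rw [h1]; rfl
  omega

end Pool.Agent.U865.EF
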