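import Pool.Agent.U865.EF.Fac

/-!
# The expected local factor: main results
-/

set_option autoImplicit false

open Module

namespace Pool.Agent.U865.EF

universe u v w

open Pool.Agent.Y143 Pool.Agent.Y163.MW Pool.Agent.Y163.MX Pool.Agent.U865.WM

variable {Ω : Type w} [Field Ω] [CharZero Ω] {R : Coh.{v, w} Ω} {q : ℕ}

/-- The characteristic polynomial as a product over the eigenvalues. -/
lemma charP_evs (hR : R.IsCoh q) (m : ℕ) : charP R m = ∏ α ∈ evs hR m,
    (Polynomial.X - Polynomial.C α) ^ mult R m α := by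
  unfold charP
  refine finprod_eq_prod_of_mulSupport_subset _ ?_
  intro α hα
  rw [Finset.mem_coe, mem_evs]
  intro h0
  apply hα
  simp only
  rw [h0, pow_zero]

lemma factor_evs (hR : R.IsCoh q) (m : ℕ) : factor R m = ∏ α ∈ evs hR m,
    (1 - Polynomial.C α * Polynomial.X) ^ kmult R m α := by
  unfold factor
  refine finprod_eq_prod_of_mulSupport_subset _ ?_
  intro α hα
  rw [Finset.mem_coe, mem_evs]
  intro h0
  apply hα
  have h1 := kmult_add hR m α
  have h2 : kmult R m α = 0 := by omega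
  simp only
  rw [h2, pow_zero]

omit [CharZero Ω] in
/-- The degree of a product. -/
lemma natDegree_fac {s : Finset Ω} (hs : ∀ α ∈ s, α ≠ 0) (e : Ω → ℕ) :
    (∏ α ∈ s, (1 - Polynomial.C α * Polynomial.X) ^ e α).natDegree = ∑ α ∈ s, e α := by
  have h1 : ∀ α ∈ s, (1 - Polynomial.C α * Polynomial.X : Polynomial Ω).natDegree = 1 := by
    intro α hα
    have h2 : (1 - Polynomial.C α * Polynomial.X : Polynomial Ω) =
        Polynomial.C (-α) * Polynomial.X + Polynomial.C 1 := by
      rw [Polynomial.C_neg, Polynomial.C_1]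
      ring
    rw [h2]
    exact Polynomial.natDegree_linear (neg_ne_zero.2 (hs α hα))
  have h0 : ∀ α ∈ s, (1 - Polynomial.C α * Polynomial.X : Polynomial Ω) ^ e α ≠ 0 := by
    intro α hα
    apply pow_ne_zero
    intro h
    have := h1 α hα
    rw [h, Polynomial.natDegree_zero] at this
    exact absurd this (by norm_num)
  rw [Polynomial.natDegree_prod _ _ h0]
  refine Finset.sum_congr rfl fun α hα => ?_
  rw [Polynomial.natDegree_pow, h1 α hα, mul_one]

section

lemma C_monic (hR : R.IsCoh q) {m : ℕ} {C : Polynomial ℚ}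
    (hC : charP R m = C.map (algebraMap ℚ Ω)) : C.Monic := by
  apply Polynomial.monic_of_injective (algebraMap ℚ Ω).injective
  rw [← hC, charP_evs hR m]
  exact Polynomial.monic_prod_of_monic _ _ fun α _ => (Polynomial.monic_X_sub_C α).pow _

lemma mult_C (hR : R.IsCoh q) {m : ℕ} {C : Polynomial ℚ}
    (hC : charP R m = C.map (algebraMap ℚ Ω)) (α : Ω) :
    (C.map (algebraMap ℚ Ω)).rootMultiplicity α = mult R m α := by
  rw [← hC, rootMultiplicity_charP hR]

/-- A polynomial which divides the characteristic polynomial. -/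
lemma dvd_prod [IsAlgClosed Ω] (hR : R.IsCoh q) {m : ℕ} {C : Polynomial ℚ}
    (hC : charP R m = C.map (algebraMap ℚ Ω)) {P : Polynomial ℚ} (hP : P.Monic) (hd : P ∣ C) :
    P.map (algebraMap ℚ Ω) = ∏ α ∈ evs hR m, (Polynomial.X - Polynomial.C α) ^
      (P.map (algebraMap ℚ Ω)).rootMultiplicity α := by
  classical
  have hC0 : C.map (algebraMap ℚ Ω) ≠ 0 := (C_monic hR hC).map _ |>.ne_zero
  have hPm : (P.map (algebraMap ℚ Ω)).Monic := hP.map _
  have h1 := (IsAlgClosed.splits (P.map (algebraMap ℚ Ω))).eq_prod_roots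
  rw [hPm.leadingCoeff, Polynomial.C_1, one_mul] at h1
  conv_lhs => rw [h1]
  rw [Finset.prod_multiset_map_count]
  have hsub : (P.map (algebraMap ℚ Ω)).roots.toFinset ⊆ evs hR m := by
    intro α hα
    rw [Multiset.mem_toFinset, Polynomial.mem_roots hPm.ne_zero] at hα
    rw [mem_evs, ← mult_C hR hC]
    have h2 := Polynomial.rootMultiplicity_le_rootMultiplicity_of_dvd hC0
      (Polynomial.map_dvd (algebraMap ℚ Ω) hd) α
    have h3 := (Polynomial.rootMultiplicity_pos hPm.ne_zero).2 hα
    omega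
  rw [← Finset.prod_subset hsub]
  · refine Finset.prod_congr rfl fun α _ => ?_
    rw [Polynomial.count_roots]
  · intro α _ hα
    rw [Multiset.mem_toFinset, ← Multiset.count_ne_zero, not_not, Polynomial.count_roots] at hα
    rw [hα, pow_zero]

/-- The expected factor as a product. -/
lemma expected_eq [IsAlgClosed Ω] (hq : 1 < q) (hR : R.IsCoh q) {m : ℕ} {C : Polynomial ℚ}
    (hC : charP R m = C.map (algebraMap ℚ Ω)) :
    (expected C q).map (algebraMap ℚ Ω) = ∏ α ∈ evs hR m, (1 - Polynomial.C α * Polynomial.X) ^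
      (mult R m α - min (mult R m α) (mult R m (α / q))) := by
  have hCm := C_monic hR hC
  have hG := common_monic hCm.ne_zero q
  have hP := quot_monic hCm q
  have hd : C / common C q ∣ C := ⟨common C q, by rw [mul_comm]; exact (quot_mul hCm.ne_zero q).symm⟩
  unfold expected
  rw [reverse_map, dvd_prod hR hC hP hd, reverse_prod]
  refine Finset.prod_congr rfl fun α _ => ?_
  congr 1
  have h1 : (common C q * (C / common C q)).map (algebraMap ℚ Ω) = C.map (algebraMap ℚ Ω) := by
    rw [quot_mul hCm.ne_zero q]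
  have h2 := congrArg (fun f => Polynomial.rootMultiplicity α f) h1
  rw [Polynomial.map_mul, Polynomial.rootMultiplicity_mul (mul_ne_zero (hG.map _).ne_zero
    (hP.map _).ne_zero), mult_common hCm.ne_zero (by omega), mult_C hR hC, mult_C hR hC] at h2
  omega

/-- The degree of the greatest common divisor. -/
lemma common_degree [IsAlgClosed Ω] (hq : 1 < q) (hR : R.IsCoh q) {m : ℕ} {C : Polynomial ℚ}
    (hC : charP R m = C.map (algebraMap ℚ Ω)) :
    (common C q).natDegree = ∑ α ∈ evs hR m, min (mult R m α) (mult R m (α / q)) := by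
  have hCm := C_monic hR hC
  have hG := common_monic hCm.ne_zero q
  have h1 : (common C q).natDegree = ((common C q).map (algebraMap ℚ Ω)).natDegree :=
    (Polynomial.natDegree_map _).symm
  rw [h1, dvd_prod hR hC hG (common_dvd C q), Polynomial.natDegree_prod_of_monic _ _
    (fun α _ => (Polynomial.monic_X_sub_C α).pow _)]
  refine Finset.sum_congr rfl fun α _ => ?_
  rw [Polynomial.natDegree_pow, Polynomial.natDegree_X_sub_C, mul_one,
    mult_common hCm.ne_zero (by omega), mult_C hR hC, mult_C hR hC]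

end

/-- **The expected factor divides the local factor.** -/
theorem main [IsAlgClosed Ω] (hq : 1 < q) (hR : R.IsCoh q) {m : ℕ} {C : Polynomial ℚ}
    (hC : charP R m = C.map (algebraMap ℚ Ω)) :
    Pool.Agent.U865.WM.rk R m 1 ≤ (common C q).natDegree ∧
      (expected C q).map (algebraMap ℚ Ω) ∣ factor R m ∧
      (factor R m = (expected C q).map (algebraMap ℚ Ω) ↔
        Pool.Agent.U865.WM.rk R m 1 = (common C q).natDegree) := by
  have hmin := rkA_le_min hq hR m
  have hk : ∀ α, mult R m α - min (mult R m α) (mult R m (α / q)) ≤ kmult R m α := by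
    intro α
    have := kmult_add hR m α
    have := hmin α
    omega
  have hle : ∀ α ∈ evs hR m, rkA R m 1 α ≤ min (mult R m α) (mult R m (α / q)) :=
    fun α _ => hmin α
  have hne : ∀ α ∈ evs hR m, α ≠ 0 := fun α hα => evs_ne_zero hq hα
  rw [rk_eq_sum hq hR, common_degree hq hR hC, expected_eq hq hR hC, factor_evs hR]
  refine ⟨Finset.sum_le_sum hle, Finset.prod_dvd_prod_of_dvd _ _ fun α _ =>
    pow_dvd_pow _ (hk α), ?_⟩
  constructor
  · intro h
    have h1 := congrArg Polynomial.natDegree h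
    rw [natDegree_fac hne, natDegree_fac hne] at h1
    have h2 : ∀ α ∈ evs hR m, mult R m α - min (mult R m α) (mult R m (α / q)) ≤ kmult R m α :=
      fun α _ => hk α
    have h3 := (Finset.sum_eq_sum_iff_of_le h2).1 h1.symm
    refine Finset.sum_congr rfl fun α hα => ?_
    have := h3 α hα
    have := kmult_add hR m α
    have := hmin α
    omega
  · intro h
    have h3 := (Finset.sum_eq_sum_iff_of_le hle).1 h
    refine Finset.prod_congr rfl fun α hα => ?_
    congr 1
    have := h3 α hα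
    have := kmult_add hR m α
    omega

/-- The bound by the weights. -/
theorem common_le [IsAlgClosed Ω] (hq : 1 < q) (hR : R.IsCoh q) {m : ℕ} {C : Polynomial ℚ}
    (hC : charP R m = C.map (algebraMap ℚ Ω)) :
    (common C q).natDegree ≤ numGE R q m 1 + numGE R q m 2 := by
  rw [common_degree hq hR hC]
  have h1 : ((numGE R q m 1 + numGE R q m 2 : ℕ) : ℝ) = ∑ α ∈ evs hR m,
      (ind ((1 : ℝ) ≤ wpos q m α) + ind ((1 : ℝ) < wpos q m α)) * mult R m α := by
    push_cast
    rw [numGE_eq hq hR, numGE_eq hq hR, ← Finset.sum_add_distrib]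
    refine Finset.sum_congr rfl fun α _ => ?_
    rw [add_mul]
    congr 2
    · congr 1
      push_cast
      rfl
    · congr 1
      unfold wpos
      simp only [eq_iff_iff]
      rw [show ((1 : ℝ)) = (((1 : ℤ)) : ℝ) by push_cast; rfl, Int.cast_lt, Int.cast_le]
      exact Iff.rfl
  have h2 : ∑ α ∈ evs hR m, ((min (mult R m α) (mult R m (α / q)) : ℕ) : ℝ) ≤
      ∑ α ∈ evs hR m, (hf (wpos q m α - (1 : ℕ)) * mult R m α +
        (1 - hf (wpos q m α - (1 : ℕ))) * mult R m (α / (q : Ω) ^ 1)) := by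
    refine Finset.sum_le_sum fun α _ => ?_
    rw [pow_one]
    have a1 : ((min (mult R m α) (mult R m (α / q)) : ℕ) : ℝ) ≤ mult R m α := by
      exact_mod_cast min_le_left _ _
    have a2 : ((min (mult R m α) (mult R m (α / q)) : ℕ) : ℝ) ≤ mult R m (α / q) := by
      exact_mod_cast min_le_right _ _
    have b1 := hf_nonneg (wpos q m α - (1 : ℕ))
    have b2 := hf_le (wpos q m α - (1 : ℕ))
    nlinarith [mul_le_mul_of_nonneg_left a1 b1, mul_le_mul_of_nonneg_left a2 (sub_nonneg.2 b2)]
  obtain ⟨_, _, c⟩ := rk_le hq hR (isPos_wpos hq hR m) hf_nonneg hf_le hf_neg 1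
  have e : 2 * ∑ α ∈ evs hR m, hf (wpos q m α - (1 : ℕ)) * (mult R m α : ℝ) =
      ((numGE R q m 1 + numGE R q m 2 : ℕ) : ℝ) := by
    rw [h1, Finset.mul_sum]
    refine Finset.sum_congr rfl fun α _ => ?_
    rw [← mul_assoc, two_hf]
    push_cast
    rfl
  rw [e] at c
  have h3 := h2.trans c
  have h4 : ((∑ α ∈ evs hR m, min (mult R m α) (mult R m (α / q)) : ℕ) : ℝ) ≤
      ((numGE R q m 1 + numGE R q m 2 : ℕ) : ℝ) := by
    push_cast at h3 ⊢
    exact h3
  exact_mod_cast h4

/-- Maximal rank from the numbers of the weights. -/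
theorem rank_of_num [IsAlgClosed Ω] (hq : 1 < q) (hR : R.IsCoh q) {m : ℕ} {C : Polynomial ℚ}
    (hC : charP R m = C.map (algebraMap ℚ Ω))
    (h : Pool.Agent.U865.WM.rk R m 1 = numGE R q m 1 + numGE R q m 2) :
    Pool.Agent.U865.WM.rk R m 1 = (common C q).natDegree :=
  le_antisymm (main hq hR hC).1 (h ▸ common_le hq hR hC)

theorem rank_of_mw [IsAlgClosed Ω] (hq : 1 < q) (hR : R.IsCoh q) {m : ℕ} {C : Polynomial ℚ}
    (hC : charP R m = C.map (algebraMap ℚ Ω)) (h : R.MWPure q m) :
    Pool.Agent.U865.WM.rk R m 1 = (common C q).natDegree := by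
  apply rank_of_num hq hR hC
  have := (mw_iff_rk hq hR m).1 h 1 le_rfl
  simpa using this

/-- Maximal rank from maximal sums of ranks. -/
theorem rank_of_sum [IsAlgClosed Ω] (hq : 1 < q) (hR : R.IsCoh q) {m : ℕ} {C : Polynomial ℚ}
    (hC : charP R m = C.map (algebraMap ℚ Ω)) {M : ℕ}
    (h : weightExcess R q m 0 ≤ rankSumFrom R m 0 M) :
    Pool.Agent.U865.WM.rk R m 1 = (common C q).natDegree := by
  apply rank_of_num hq hR hC
  set M' := max M 1 with hM'
  have h1 : rankSumFrom R m 0 M ≤ rankSumFrom R m 0 M' :=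
    Finset.sum_le_sum_of_subset (Finset.range_mono (le_max_left _ _))
  have h2 := sum_num hq hR m 0 M'
  have h3 : ∀ j ∈ Finset.range M', Pool.Agent.U865.WM.rk R m (0 + 1 + 2 * j) ≤
      numGE R q m ((0 + 1 + 2 * j : ℕ) : ℤ) + numGE R q m (((0 + 1 + 2 * j : ℕ) : ℤ) + 1) :=
    fun j _ => rk_le_num hq hR m (0 + 1 + 2 * j)
  have h4 : rankSumFrom R m 0 M' = ∑ j ∈ Finset.range M', (numGE R q m ((0 + 1 + 2 * j : ℕ) : ℤ) +
      numGE R q m (((0 + 1 + 2 * j : ℕ) : ℤ) + 1)) := by
    refine le_antisymm (Finset.sum_le_sum h3) (h2.trans ?_)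
    exact (show weightExcess R q m ((0 : ℕ) : ℤ) ≤ rankSumFrom R m 0 M by exact_mod_cast h).trans h1
  have h5 := (Finset.sum_eq_sum_iff_of_le h3).1 h4 0 (Finset.mem_range.2 (by omega))
  simpa using h5

/-- Integrality. -/
theorem expected_integral [IsAlgClosed Ω] (hR : R.IsCoh q) {m : ℕ} {C : Polynomial ℚ}
    (hC : charP R m = C.map (algebraMap ℚ Ω)) (hint : ∀ α, mult R m α ≠ 0 → IsIntegral ℤ α) :
    ∃ L : Polynomial ℤ, L.map (Int.castRingHom ℚ) = expected C q := by
  have hCm := C_monic hR hC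
  have hP := quot_monic hCm q
  -- `C` has integral coefficients
  have h1 : ∀ i, IsIntegral ℤ ((C.map (algebraMap ℚ Ω)).coeff i) := by
    intro i
    refine Polynomial.isIntegral_coeff_of_factors _ ?_ (IsAlgClosed.splits _) ?_ i
    · rw [(hCm.map _).leadingCoeff]
      exact isIntegral_one
    · intro α hα
      apply hint
      rw [← mult_C hR hC]
      exact ((Polynomial.rootMultiplicity_pos (hCm.map _).ne_zero).2 hα).ne'
  have h2 : ∀ i, ∃ z : ℤ, algebraMap ℤ ℚ z = C.coeff i := by
    intro i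
    have h3 := h1 i
    rw [Polynomial.coeff_map] at h3
    have h4 : IsIntegral ℤ (C.coeff i) :=
      (isIntegral_algebraMap_iff (algebraMap ℚ Ω).injective).1 h3
    exact IsIntegrallyClosed.isIntegral_iff.1 h4
  obtain ⟨C', hC'⟩ : ∃ C' : Polynomial ℤ, C'.map (algebraMap ℤ ℚ) = C := by
    have h3 : C ∈ Polynomial.lifts (algebraMap ℤ ℚ) :=
      (Polynomial.lifts_iff_coeff_lifts _).2 fun i => h2 i
    exact (Polynomial.mem_lifts _).1 h3
  have hC'm : C'.Monic := by
    apply Polynomial.monic_of_injective (algebraMap ℤ ℚ).injective_int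
    rw [hC']
    exact hCm
  have hd : C / common C q ∣ C'.map (algebraMap ℤ ℚ) := by
    rw [hC']
    exact ⟨common C q, by rw [mul_comm]; exact (quot_mul hCm.ne_zero q).symm⟩
  obtain ⟨P', hP'⟩ := IsIntegrallyClosed.eq_map_mul_C_of_dvd ℚ hC'm hd
  rw [hP.leadingCoeff, Polynomial.C_1, mul_one] at hP'
  refine ⟨P'.reverse, ?_⟩
  unfold expected
  rw [← hP']
  unfold Polynomial.reverse
  rw [show (Int.castRingHom ℚ) = algebraMap ℤ ℚ from rfl, ← Polynomial.reflect_map,
    Polynomial.natDegree_map_eq_of_injective (algebraMap ℤ ℚ).injective_int]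

end Pool.Agent.U865.EF
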