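import Pool.Agent.U865.EF.Main

/-!
# The expected local factor: degrees, the case of one rational eigenvalue, all prime numbers `ℓ`
-/

set_option autoImplicit false

open Module

namespace Pool.Agent.U865.EF

universe u v w

open Pool.Agent.H914 Pool.Agent.Y143 Pool.Agent.Y163.MW Pool.Agent.Y163.MX Pool.Agent.U865.WM

section

variable {Ω : Type w} [Field Ω] [CharZero Ω] {R : Coh.{v, w} Ω} {q : ℕ}

lemma natDegree_factor [IsAlgClosed Ω] (hq : 1 < q) (hR : R.IsCoh q) (m : ℕ) :
    (factor R m).natDegree = finrank Ω (LinearMap.ker R.N ⊓ R.gr m : Submodule Ω R.V) := by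
  rw [factor_evs hR, natDegree_fac (fun α hα => evs_ne_zero hq hα)]
  have h1 := rk_add_ker hR m
  rw [rk_eq_sum hq hR, finrank_gr_eq hR] at h1
  have h2 : ∑ α ∈ evs hR m, kmult R m α + ∑ α ∈ evs hR m, rkA R m 1 α =
      ∑ α ∈ evs hR m, mult R m α := by
    rw [← Finset.sum_add_distrib]
    exact Finset.sum_congr rfl fun α _ => kmult_add hR m α
  omega

lemma natDegree_charP [IsAlgClosed Ω] (hR : R.IsCoh q) (m : ℕ) :
    (charP R m).natDegree = finrank Ω (R.gr m) := by
  rw [charP_evs hR, finrank_gr_eq hR, Polynomial.natDegree_prod_of_monic _ _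
    (fun α _ => (Polynomial.monic_X_sub_C α).pow _)]
  refine Finset.sum_congr rfl fun α _ => ?_
  rw [Polynomial.natDegree_pow, Polynomial.natDegree_X_sub_C, mul_one]

lemma natDegree_expected [IsAlgClosed Ω] (hq : 1 < q) (hR : R.IsCoh q) {m : ℕ} {C : Polynomial ℚ}
    (hC : charP R m = C.map (algebraMap ℚ Ω)) :
    ((expected C q).map (algebraMap ℚ Ω)).natDegree + (common C q).natDegree =
      finrank Ω (R.gr m) := by
  rw [expected_eq hq hR hC, natDegree_fac (fun α hα => evs_ne_zero hq hα),
    common_degree hq hR hC, finrank_gr_eq hR, ← Finset.sum_add_distrib]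
  refine Finset.sum_congr rfl fun α _ => ?_
  have := min_le_left (mult R m α) (mult R m (α / q))
  omega

omit [CharZero Ω] in
lemma fac_ne_zero (α : Ω) (n : ℕ) : (1 - Polynomial.C α * Polynomial.X : Polynomial Ω) ^ n ≠ 0 := by
  apply pow_ne_zero
  intro h
  have := congrArg (Polynomial.eval 0) h
  simp at this

lemma expected_ne_zero [IsAlgClosed Ω] (hq : 1 < q) (hR : R.IsCoh q) {m : ℕ} {C : Polynomial ℚ}
    (hC : charP R m = C.map (algebraMap ℚ Ω)) : (expected C q).map (algebraMap ℚ Ω) ≠ 0 := by
  rw [expected_eq hq hR hC]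
  exact Finset.prod_ne_zero_iff.2 fun α _ => fac_ne_zero α _

/-- The quotient of the local factor by the expected factor. -/
theorem quotient [IsAlgClosed Ω] (hq : 1 < q) (hR : R.IsCoh q) {m : ℕ} {C : Polynomial ℚ}
    (hC : charP R m = C.map (algebraMap ℚ Ω)) :
    ∃ D : Polynomial Ω, factor R m = (expected C q).map (algebraMap ℚ Ω) * D ∧
      D.natDegree + Pool.Agent.U865.WM.rk R m 1 = (common C q).natDegree := by
  obtain ⟨h1, ⟨D, hD⟩, _⟩ := main hq hR hC
  refine ⟨D, hD, ?_⟩
  have h2 := natDegree_factor hq hR m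
  have h3 := rk_add_ker hR m
  have h4 := natDegree_expected hq hR hC
  have h5 : factor R m ≠ 0 := by
    rw [factor_evs hR]
    exact Finset.prod_ne_zero_iff.2 fun α _ => fac_ne_zero α _
  have hD0 : D ≠ 0 := by
    rintro rfl
    rw [mul_zero] at hD
    exact h5 hD
  rw [hD, Polynomial.natDegree_mul (expected_ne_zero hq hR hC) hD0] at h2
  omega

/-- The case where the greatest common divisor is a power of a linear polynomial. -/
theorem linear_case [IsAlgClosed Ω] (hq : 1 < q) (hR : R.IsCoh q) {m : ℕ} {C : Polynomial ℚ}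
    (hC : charP R m = C.map (algebraMap ℚ Ω)) {b : ℚ} {g : ℕ}
    (hg : common C q = (Polynomial.X - Polynomial.C b) ^ g) :
    factor R m = (expected C q).map (algebraMap ℚ Ω) *
      (1 - Polynomial.C (b : Ω) * Polynomial.X) ^ (g - Pool.Agent.U865.WM.rk R m 1) := by
  classical
  have hCm := C_monic hR hC
  -- the smaller of the multiplicities vanishes outside of `b`
  have hroot : ∀ α : Ω, min (mult R m α) (mult R m (α / q)) = if α = (b : Ω) then g else 0 := by
    intro α
    have h1 := mult_common (Ω := Ω) hCm.ne_zero (q := q) (by omega) α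
    rw [mult_C hR hC, mult_C hR hC, hg] at h1
    rw [← h1, Polynomial.map_pow, Polynomial.map_sub, Polynomial.map_X, Polynomial.map_C,
      show (algebraMap ℚ Ω) b = (b : Ω) from rfl]
    split_ifs with h
    · rw [h]
      exact Polynomial.rootMultiplicity_X_sub_C_pow _ _
    · apply Polynomial.rootMultiplicity_eq_zero
      rw [Polynomial.IsRoot, Polynomial.eval_pow, Polynomial.eval_sub, Polynomial.eval_X,
        Polynomial.eval_C]
      exact pow_ne_zero _ (sub_ne_zero.2 h)
  have hrk : ∀ α : Ω, α ≠ (b : Ω) → rkA R m 1 α = 0 := by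
    intro α hα
    have := rkA_le_min hq hR m α
    rw [hroot α, if_neg hα] at this
    omega
  rcases Nat.eq_zero_or_pos g with h0 | h0
  · -- no common root
    subst h0
    rw [Nat.zero_sub, pow_zero, mul_one]
    refine ((main hq hR hC).2.2).2 ?_
    have h1 := (main hq hR hC).1
    rw [hg, pow_zero, Polynomial.natDegree_one] at h1 ⊢
    omega
  · have hb : (b : Ω) ∈ evs hR m := by
      rw [mem_evs]
      have := hroot (b : Ω)
      rw [if_pos rfl] at this
      have := min_le_left (mult R m (b : Ω)) (mult R m ((b : Ω) / q))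
      omega
    have h1 : Pool.Agent.U865.WM.rk R m 1 = rkA R m 1 (b : Ω) := by
      rw [rk_eq_sum hq hR]
      exact Finset.sum_eq_single _ (fun α _ hα => hrk α hα) (fun h => absurd hb h)
    rw [h1, factor_evs hR, expected_eq hq hR hC, ← Finset.mul_prod_erase _ _ hb,
      ← Finset.mul_prod_erase _ (fun α : Ω => (1 - Polynomial.C α * Polynomial.X) ^
        (mult R m α - min (mult R m α) (mult R m (α / q)))) hb]
    have h2 : ∏ α ∈ (evs hR m).erase (b : Ω), (1 - Polynomial.C α * Polynomial.X) ^ kmult R m α =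
        ∏ α ∈ (evs hR m).erase (b : Ω), (1 - Polynomial.C α * Polynomial.X) ^
          (mult R m α - min (mult R m α) (mult R m (α / q))) := by
      refine Finset.prod_congr rfl fun α hα => ?_
      have hα' := (Finset.mem_erase.1 hα).1
      have h3 := hroot α
      rw [if_neg hα'] at h3
      have h4 := hrk α hα'
      have h5 := kmult_add hR m α
      congr 1
      omega
    rw [h2]
    have h3 := hroot (b : Ω)
    rw [if_pos rfl] at h3
    have h4 := kmult_add hR m (b : Ω)
    have h5 := rkA_le_min hq hR m (b : Ω)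
    have h6 := min_le_left (mult R m (b : Ω)) (mult R m ((b : Ω) / q))
    have h7 : kmult R m (b : Ω) = (mult R m (b : Ω) - min (mult R m (b : Ω))
        (mult R m ((b : Ω) / q))) + (g - rkA R m 1 (b : Ω)) := by omega
    rw [h7, pow_add]
    ring

end

/-- The data, for the smooth projective varieties over the field `K` (`ℚ` or another number field)
and a finite place of `K` of residue characteristic `p`: for the prime numbers `ℓ ≠ p` the largest
subspace `H ℓ X` of the `ℓ`-adic cohomology `⊕ H^m(X ⊗ K̄)`, with coefficients in the algebraic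
closure `Ω ℓ` of `ℚ_ℓ`, on which the inertia group acts unipotently, with the geometric Frobenius `F`
and the monodromy operator `N` (`H ℓ X` is the whole cohomology if `X` has semistable reduction; in
general it is the space of invariants of the finite group through which inertia acts in the
Weil-Deligne representation). So `ker N ∩ H^m` is the space of all invariants of inertia in the
`ℓ`-adic `H^m(X)`. For `ℓ = p` it is the space `D_st` of the `p`-adic étale cohomology with its
linear Frobenius and monodromy operator. Finally the `p`-adic valuation of `Ω p`. -/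
structure FTheory (K : Type u) [Field K] (Ω : Nat.Primes → Type w) [∀ ℓ, Field (Ω ℓ)]
    (p : Nat.Primes) where
  /-- the part of the cohomology on which inertia acts unipotently -/
  H : ∀ ℓ, SmVar.{u} K → Coh.{v, w} (Ω ℓ)
  /-- the valuation -/
  val : Ω p → ℝ

/-- The known properties, for a place whose residue field has `q` elements: those of the cohomology
for one `ℓ` (`N F = q F N`, duality, the eigenvalues of `F` are Weil numbers of integral weights);
the eigenvalues of `F` are algebraic integers; the valuation is normalized by `val q = 1`; the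
alternating product of the characteristic polynomials of `F` on the `H^j(X)` is a rational function
with rational coefficients which does not depend on `ℓ` (Ochiai, T. Saito). -/
structure FTheory.IsLocal {K : Type u} [Field K] {Ω : Nat.Primes → Type w} [∀ ℓ, Field (Ω ℓ)]
    [∀ ℓ, CharZero (Ω ℓ)] {p : Nat.Primes} (T : FTheory.{u, v, w} K Ω p) (q : ℕ) : Prop where
  coh : ∀ ℓ X, (T.H ℓ X).IsCoh q
  integral : ∀ ℓ X m α, mult (T.H ℓ X) m α ≠ 0 → IsIntegral ℤ α
  val : IsVal q T.val
  indep : ∀ X, ∃ P Q : Polynomial ℚ, P ≠ 0 ∧ Q ≠ 0 ∧ ∀ ℓ, AltEq (T.H ℓ X) (2 * X.dim) P Q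

/-- For all `j ≠ m` the characteristic polynomial of `F` on the part of `H^j(X)` on which inertia
acts unipotently has rational coefficients and does not depend on `ℓ`. -/
def OthersIndep {K : Type u} [Field K] {Ω : Nat.Primes → Type w} [∀ ℓ, Field (Ω ℓ)]
    [∀ ℓ, CharZero (Ω ℓ)] {p : Nat.Primes} (T : FTheory.{u, v, w} K Ω p) (X : SmVar.{u} K)
    (m : ℕ) : Prop :=
  ∀ j, j ≤ 2 * X.dim → j ≠ m →
    ∃ C : Polynomial ℚ, ∀ ℓ, charP (T.H ℓ X) j = C.map (algebraMap ℚ (Ω ℓ))

variable {K : Type u} [Field K] {Ω : Nat.Primes → Type w} [∀ ℓ, Field (Ω ℓ)]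
  [∀ ℓ, CharZero (Ω ℓ)] {p : Nat.Primes} {T : FTheory.{u, v, w} K Ω p} {q : ℕ}

theorem exists_C (hT : T.IsLocal q) {X : SmVar.{u} K} {m : ℕ} (hm : m ≤ 2 * X.dim)
    (hX : OthersIndep T X m) :
    ∃ C : Polynomial ℚ, ∀ ℓ, charP (T.H ℓ X) m = C.map (algebraMap ℚ (Ω ℓ)) := by
  obtain ⟨P, Q, hP, hQ, hPQ⟩ := hT.indep X
  have : Nonempty Nat.Primes := ⟨p⟩
  exact indep_of_others (fun ℓ => T.H ℓ X) (fun ℓ => hT.coh ℓ X) hm hP hQ hPQ hX

/-- The slopes bound the weights for all `ℓ`. -/
theorem weight_slope [∀ ℓ, IsAlgClosed (Ω ℓ)] (hq : 1 < q) (hT : T.IsLocal q) {X : SmVar.{u} K}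
    {m : ℕ} {C : Polynomial ℚ} (hC : ∀ ℓ, charP (T.H ℓ X) m = C.map (algebraMap ℚ (Ω ℓ)))
    (ℓ : Nat.Primes) :
    (weightExcess (T.H ℓ X) q m 0 : ℝ) ≤ slopeExcess (T.H p X) T.val m 0 := by
  have h1 : weightExcess (T.H ℓ X) q m 0 = weightExcess (T.H p X) q m 0 := by
    rw [weightExcess_roots hq (hT.coh ℓ X) (hC ℓ), weightExcess_roots hq (hT.coh p X) (hC p)]
  rw [h1]
  have h2 := (weight_le_slope hq (hT.coh p X) ⟨C, hC p⟩ hT.val 0).1
  push_cast at h2
  exact h2

end Pool.Agent.U865.EF
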